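import Pool.Agent.H12.UT.Targets2

/-!
MP_8b378c_ag, board utn_modules, row AFF.
-/

set_option autoImplicit false

open Polynomial
open Pool.Agent.H12.UT

namespace Pool.Agent.H5.UT

theorem pf_AFF : T_AFF := by
  intro K L _ _ _ n x p q hq hx
  rw [algebraicIndependent_iff_injective_aeval] at hx ⊢
  let θ : MvPolynomial (Fin n) K →ₐ[K] MvPolynomial (Fin n) K :=
    MvPolynomial.aeval (fun j => MvPolynomial.C (p j) + MvPolynomial.C (q j) * MvPolynomial.X j)
  let θ' : MvPolynomial (Fin n) K →ₐ[K] MvPolynomial (Fin n) K :=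
    MvPolynomial.aeval (fun j => MvPolynomial.C (q j)⁻¹ * (MvPolynomial.X j -
      MvPolynomial.C (p j)))
  have h1 : θ'.comp θ = AlgHom.id K _ := by
    apply MvPolynomial.algHom_ext
    intro j
    have h2 : θ (MvPolynomial.X j) = MvPolynomial.C (p j) + MvPolynomial.C (q j) *
        MvPolynomial.X j := MvPolynomial.aeval_X _ _
    have h3 : θ' (MvPolynomial.X j) = MvPolynomial.C (q j)⁻¹ * (MvPolynomial.X j -
      MvPolynomial.C (p j)) := MvPolynomial.aeval_X _ _
    have h4 : ∀ c : K, θ' (MvPolynomial.C c) = MvPolynomial.C c := fun c =>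
      θ'.commutes c
    rw [AlgHom.comp_apply, h2, map_add, map_mul, h3, h4, h4, AlgHom.id_apply, ← mul_assoc,
      ← MvPolynomial.C_mul, mul_inv_cancel₀ (hq j), MvPolynomial.C_1, one_mul]
    ring
  have h5 : Function.Injective θ := by
    have : Function.LeftInverse θ' θ := fun f => DFunLike.congr_fun h1 f
    exact this.injective
  have h6 : MvPolynomial.aeval (R := K)
      (fun j => algebraMap K L (p j) + algebraMap K L (q j) * x j) =
      (MvPolynomial.aeval x).comp θ := by
    apply MvPolynomial.algHom_ext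
    intro j
    have h2 : θ (MvPolynomial.X j) = MvPolynomial.C (p j) + MvPolynomial.C (q j) *
        MvPolynomial.X j := MvPolynomial.aeval_X _ _
    rw [AlgHom.comp_apply, h2, MvPolynomial.aeval_X, map_add, map_mul, MvPolynomial.aeval_X,
      MvPolynomial.aeval_C, MvPolynomial.aeval_C]
  rw [h6]
  exact hx.comp h5

end Pool.Agent.H5.UT
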