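import Pool.Agent.H12.UT.Targets2

/-!
MP_8b378c_ag, board utn_modules, row CO.
-/

set_option autoImplicit false

open Polynomial
open Pool.Agent.H12.UT

namespace Pool.Agent.H5.UT

theorem nv_mul_sq {E : Type*} [CommRing E] {c n : E} (h : NV c n) (t : E) : NV c (n * t ^ 2) := by
  obtain ⟨x, y, rfl⟩ := h
  exact ⟨x * t, y * t, by ring⟩

theorem ps_C {κ E : Type} [Field κ] [Field E] (i : κ →+* E) (ν : E) (s : ℝ) (c : HS κ) :
    ps i ν s (C c) = hmap i c := by
  simp [ps]

/-- the map `ps` is injective -/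
theorem ps_inj (hPS : T_PS) (κ E : Type) [Field κ] [Field E] [Algebra κ[X] E]
    [IsFractionRing κ[X] E] (s : ℝ) :
    Function.Injective (ps ((algebraMap κ[X] E).comp C) (algebraMap κ[X] E X) s) := by
  rw [injective_iff_map_eq_zero]
  intro A hA
  by_contra hne
  have hsup : A.support.Nonempty := Polynomial.support_nonempty.mpr hne
  obtain ⟨j0, hj0, hmin⟩ := Finset.exists_min_image A.support
    (fun j => (A.coeff j).order + s * (j : ℝ)) hsup
  exact (hPS κ E A s ((A.coeff j0).order + s * (j0 : ℝ)) hmin ⟨j0, hj0, rfl⟩).1 hA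

theorem H_trans {κ : Type} [Field κ] {a b d : κ} {H : κ → Prop} (hH : HG a b d H) {x y w : κ}
    (hy : y ≠ 0) (h1 : H (x * y)) (h2 : H (y * w)) : H (x * w) := by
  have h3 := hH.mul _ _ (hH.mul _ _ h1 h2) (hH.sq (y⁻¹) (inv_ne_zero hy))
  have h4 : x * y * (y * w) * y⁻¹ ^ 2 = x * w := by
    field_simp
  rwa [h4] at h3

/-- the sum over an edge -/
theorem edge_poly {κ : Type} [Field κ] (T : Finset ℕ) (g : ℕ → κ) (i j : ℕ) (hi : i ∈ T)
    (hj : j ∈ T) (hb : ∀ k ∈ T, i ≤ k ∧ k ≤ j) (hg : ∀ k ∈ T, g k ≠ 0) :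
    (∑ k ∈ T, monomial k (g k) : κ[X]) ≠ 0 ∧
    (∑ k ∈ T, monomial k (g k) : κ[X]).trailingCoeff = g i ∧
    (∑ k ∈ T, monomial k (g k) : κ[X]).leadingCoeff = g j := by
  have hc : ∀ n, (∑ k ∈ T, monomial k (g k) : κ[X]).coeff n = if n ∈ T then g n else 0 := by
    intro n
    rw [Polynomial.finsetSum_coeff]
    simp only [Polynomial.coeff_monomial]
    rw [Finset.sum_ite_eq']
  set f : κ[X] := ∑ k ∈ T, monomial k (g k) with hf
  have hci : f.coeff i = g i := by rw [hc, if_pos hi]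
  have hcj : f.coeff j = g j := by rw [hc, if_pos hj]
  have hne : f ≠ 0 := by
    intro h0
    rw [h0, Polynomial.coeff_zero] at hci
    exact hg i hi hci.symm
  refine ⟨hne, ?_, ?_⟩
  · have h1 : f.natTrailingDegree = i := by
      apply le_antisymm
      · apply Polynomial.natTrailingDegree_le_of_ne_zero
        rw [hci]
        exact hg i hi
      · apply Polynomial.le_natTrailingDegree hne
        intro n hn
        rw [hc, if_neg]
        intro hnT
        exact absurd (hb n hnT).1 (by omega)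
    rw [Polynomial.trailingCoeff, h1, hci]
  · have h1 : f.natDegree = j := by
      apply le_antisymm
      · rw [Polynomial.natDegree_le_iff_coeff_eq_zero]
        intro n hn
        rw [hc, if_neg]
        intro hnT
        exact absurd (hb n hnT).2 (by omega)
      · apply Polynomial.le_natDegree_of_ne_zero
        rw [hcj]
        exact hg j hj
    rw [Polynomial.leadingCoeff, h1, hcj]

theorem pf_CO (hA1 : T_A1) (hA2 : T_A2) (hE3 : T_E3) (hPS : T_PS) (hNP : T_NP) (hCV : T_CV) :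
    T_CO := by
  intro κ E K Ω _ _ _ _ _ _ _ _ a b d H hH ha hb hd N z hz hz' i0 i1 u hu hχ
  obtain ⟨Φ, hΦ1, hΦ2⟩ := hCV K (HS κ) Ω (FractionRing (HS κ)[X]) N z hz hz' i0 i1
  obtain ⟨A, B, D, α, β, hβ, hα, hAD, hBD, hA0, hAD', hB0, hBD', hAB⟩ := hΦ2 u
  have hα0 : α ≠ 0 := by rw [hα]; exact mul_ne_zero hu hβ
  have hi0 : ∀ x : Ω, x ≠ 0 → i0 x ≠ 0 := fun x hx => by
    rw [Ne, map_eq_zero]; exact hx
  have hi1 : ∀ x : Ω, x ≠ 0 → i1 x ≠ 0 := fun x hx => by
    rw [Ne, map_eq_zero]; exact hx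
  set P : (HS κ)[X] := A * B with hP
  have hP0 : P.coeff 0 = i0 α * i0 β := by
    rw [hP, Polynomial.mul_coeff_zero, hA0, hB0]
  have hPD : P.coeff (D + D) = i1 α * i1 β := by
    rw [hP, Polynomial.coeff_mul_add_eq_of_natDegree_le hAD hBD, hAD', hBD']
  have hP0' : P.coeff 0 ≠ 0 := by
    rw [hP0]; exact mul_ne_zero (hi0 _ hα0) (hi0 _ hβ)
  have hPD0 : P.coeff (D + D) ≠ 0 := by
    rw [hPD]; exact mul_ne_zero (hi1 _ hα0) (hi1 _ hβ)
  have hPdeg : P.natDegree ≤ D + D := by
    rw [hP]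
    exact Polynomial.natDegree_mul_le_of_le hAD hBD
  have h0S : 0 ∈ P.support := Polynomial.mem_support_iff.mpr hP0'
  have hDS : D + D ∈ P.support := Polynomial.mem_support_iff.mpr hPD0
  have hSne : P.support.Nonempty := ⟨0, h0S⟩
  have hmin : P.support.min' hSne = 0 := Nat.le_zero.mp (Finset.min'_le _ _ h0S)
  have hmax : P.support.max' hSne = D + D := by
    apply le_antisymm
    · apply Finset.max'_le
      intro y hy
      exact (Polynomial.le_natDegree_of_mem_supp y hy).trans hPdeg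
    · exact Finset.le_max' _ _ hDS
  -- the norm property for every slope
  have key : ∀ s : ℝ,
      NV (algebraMap κ[X] E (C a))
        (ps ((algebraMap κ[X] E).comp C) (algebraMap κ[X] E X) s P).leadingCoeff ∧
      NV (algebraMap κ[X] E (C b))
        (ps ((algebraMap κ[X] E).comp C) (algebraMap κ[X] E X) s P).leadingCoeff ∧
      NV (algebraMap κ[X] E (C d))
        (ps ((algebraMap κ[X] E).comp C) (algebraMap κ[X] E X) s P).leadingCoeff := by
    intro s
    have hinj := ps_inj hPS κ E s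
    let L : FractionRing (HS κ)[X] →+* HS E := IsFractionRing.lift hinj
    have hL : ∀ Q : (HS κ)[X], L (algebraMap (HS κ)[X] (FractionRing (HS κ)[X]) Q) =
        ps ((algebraMap κ[X] E).comp C) (algebraMap κ[X] E X) s Q := fun Q =>
      IsFractionRing.lift_algebraMap hinj Q
    have h1 := hχ (L.comp Φ) (fun c => by
      rw [RingHom.comp_apply, hΦ1, hL, ps_C])
    have h2 : ps ((algebraMap κ[X] E).comp C) (algebraMap κ[X] E X) s A =
        (L.comp Φ) u * ps ((algebraMap κ[X] E).comp C) (algebraMap κ[X] E X) s B := by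
      have h3 := congrArg L hAB
      rw [map_mul, hL, hL] at h3
      exact h3
    have h4 : (ps ((algebraMap κ[X] E).comp C) (algebraMap κ[X] E X) s P).leadingCoeff =
        ((L.comp Φ) u).leadingCoeff *
          (ps ((algebraMap κ[X] E).comp C) (algebraMap κ[X] E X) s B).leadingCoeff ^ 2 := by
      rw [hP, map_mul, h2, HahnSeries.leadingCoeff_mul, HahnSeries.leadingCoeff_mul]
      ring
    rw [h4]
    exact ⟨nv_mul_sq h1.1 _, nv_mul_sq h1.2.1 _, nv_mul_sq h1.2.2 _⟩
  have hlc : ∀ k ∈ P.support, (P.coeff k).leadingCoeff ≠ 0 := by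
    intro k hk
    exact HahnSeries.leadingCoeff_ne_zero.mpr (Polynomial.mem_support_iff.mp hk)
  have hR := hNP P.support hSne (fun j => (P.coeff j).order)
    (fun i j => H ((P.coeff i).leadingCoeff * (P.coeff j).leadingCoeff))
    (by
      intro i hi
      rw [← sq]
      exact hH.sq _ (hlc i hi))
    (by
      intro i _ j hj k _ h1 h2
      exact H_trans hH (hlc j hj) h1 h2)
    (by
      intro s i hi j hj hij hle hbd
      obtain ⟨hne, hlead⟩ := hPS κ E P s ((P.coeff i).order + s * i) hle ⟨i, hi, rfl⟩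
      obtain ⟨k1, k2, k3⟩ := key s
      rw [hlead] at k1 k2 k3
      obtain ⟨hf0, hft, hfl⟩ := edge_poly
        (P.support.filter (fun j => (P.coeff j).order + s * j = (P.coeff i).order + s * i))
        (fun k => (P.coeff k).leadingCoeff) i j
        (Finset.mem_filter.mpr ⟨hi, rfl⟩) (Finset.mem_filter.mpr ⟨hj, hij.symm⟩)
        (fun k hk => hbd k (Finset.mem_filter.mp hk).1 (Finset.mem_filter.mp hk).2)
        (fun k hk => hlc k (Finset.mem_filter.mp hk).1)
      have hH2 := hA2 κ a b d H hH ha _ hf0 (fun p hp hodd =>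
        ⟨hA1 κ a _ p hf0 (hE3 κ E a _ k1) hp hodd, hA1 κ b _ p hf0 (hE3 κ E b _ k2) hp hodd,
          hA1 κ d _ p hf0 (hE3 κ E d _ k3) hp hodd⟩)
      rw [hft, hfl] at hH2
      exact hH2)
  rw [hmin, hmax, hP0, hPD] at hR
  have hx : (i0 α * i0 β).leadingCoeff = (i0 u).leadingCoeff * (i0 β).leadingCoeff ^ 2 := by
    rw [hα, map_mul, HahnSeries.leadingCoeff_mul, HahnSeries.leadingCoeff_mul]
    ring
  have hy : (i1 α * i1 β).leadingCoeff = (i1 u).leadingCoeff * (i1 β).leadingCoeff ^ 2 := by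
    rw [hα, map_mul, HahnSeries.leadingCoeff_mul, HahnSeries.leadingCoeff_mul]
    ring
  rw [hx, hy] at hR
  have hb0 : (i0 β).leadingCoeff ≠ 0 := HahnSeries.leadingCoeff_ne_zero.mpr (hi0 _ hβ)
  have hb1 : (i1 β).leadingCoeff ≠ 0 := HahnSeries.leadingCoeff_ne_zero.mpr (hi1 _ hβ)
  have hfin := hH.mul _ _ hR (hH.sq (((i0 β).leadingCoeff * (i1 β).leadingCoeff)⁻¹)
    (inv_ne_zero (mul_ne_zero hb0 hb1)))
  have he : (i0 u).leadingCoeff * (i0 β).leadingCoeff ^ 2 *
      ((i1 u).leadingCoeff * (i1 β).leadingCoeff ^ 2) *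
      ((i0 β).leadingCoeff * (i1 β).leadingCoeff)⁻¹ ^ 2 =
      (i0 u).leadingCoeff * (i1 u).leadingCoeff := by
    field_simp
  rwa [he] at hfin

end Pool.Agent.H5.UT
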