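import Pool.Agent.H12.UT.Targets2

/-!
MP_8b378c_ag, board utn_modules, row EXT.
-/

set_option autoImplicit false

open Polynomial
open Pool.Agent.H12.UT

namespace Pool.Agent.H5.UT

/-- the homomorphism of the pure transcendental field -/
theorem exists_theta (K Ω k : Type) [Field K] [Field Ω] [Field k] [Algebra K Ω] [Algebra K k]
    (ι : Type) (x : ι → Ω) (ξ : ι → k) (hx : AlgebraicIndependent K x)
    (hξ : AlgebraicIndependent K ξ) :
    ∃ θ : IntermediateField.adjoin K (Set.range x) →ₐ[K] k,
      ∀ j, θ ⟨x j, IntermediateField.subset_adjoin K _ ⟨j, rfl⟩⟩ = ξ j := by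
  refine ⟨(IntermediateField.val _).comp (hξ.aevalEquivField.toAlgHom.comp hx.reprField), ?_⟩
  intro j
  have h1 : hx.reprField ⟨x j, IntermediateField.subset_adjoin K _ ⟨j, rfl⟩⟩ =
      algebraMap (MvPolynomial ι K) (FractionRing (MvPolynomial ι K)) (MvPolynomial.X j) := by
    apply hx.aevalEquivField.injective
    rw [AlgebraicIndependent.reprField]
    apply Subtype.ext
    rw [hx.aevalEquivField_algebraMap_apply_coe]
    simp
  have h2 := hξ.aevalEquivField_algebraMap_apply_coe (MvPolynomial.X j)
  rw [AlgHom.comp_apply, AlgHom.comp_apply, h1]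
  simp only [IntermediateField.coe_val]
  rw [MvPolynomial.aeval_X] at h2
  exact h2

theorem pf_EXT : T_EXT := by
  intro K Ω k _ _ _ _ _ ι x ξ S hx hξ htop hS
  obtain ⟨θ, hθ⟩ := exists_theta K Ω k ι x ξ hx hξ
  have hmem : ∀ j, x j ∈ IntermediateField.adjoin K (Set.range x) := fun j =>
    IntermediateField.subset_adjoin K _ ⟨j, rfl⟩
  have hS' := hS (IntermediateField.adjoin K (Set.range x)) hmem θ rfl hθ
  have hadj : IntermediateField.adjoin (IntermediateField.adjoin K (Set.range x)) S = ⊤ := by
    rw [← IntermediateField.restrictScalars_eq_top_iff (K := K),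
      IntermediateField.adjoin_adjoin_left, htop]
  obtain ⟨φ, hφ⟩ := IntermediateField.exists_algHom_of_adjoin_splits' (K := k) (F := K) (E := Ω)
    (L := IntermediateField.adjoin K (Set.range x)) (S := S) θ (by
      intro w hw
      obtain ⟨r, hr, t, ht⟩ := hS' w hw
      have hroot : aeval w (X ^ 2 - C r : (IntermediateField.adjoin K (Set.range x))[X]) = 0 := by
        rw [map_sub, map_pow, aeval_X, aeval_C, ← hr]
        exact sub_self _
      have hmonic : (X ^ 2 - C r : (IntermediateField.adjoin K (Set.range x))[X]).Monic :=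
        Polynomial.monic_X_pow_sub_C r two_ne_zero
      refine ⟨⟨_, hmonic, ?_⟩, ?_⟩
      · rw [← Polynomial.aeval_def]
        exact hroot
      · have hdvd : minpoly (IntermediateField.adjoin K (Set.range x)) w ∣ X ^ 2 - C r :=
          minpoly.dvd _ _ hroot
        have hdvd' := Polynomial.map_dvd θ.toRingHom hdvd
        have hfac : (X ^ 2 - C r : (IntermediateField.adjoin K (Set.range x))[X]).map
            θ.toRingHom = (X - C t) * (X - C (-t)) := by
          rw [Polynomial.map_sub, Polynomial.map_pow, Polynomial.map_X, Polynomial.map_C]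
          have : θ.toRingHom r = t * t := ht
          rw [this, C_mul, C_neg]
          ring
        rw [hfac] at hdvd'
        refine Polynomial.Splits.of_dvd ((Polynomial.Splits.X_sub_C t).mul
          (Polynomial.Splits.X_sub_C (-t))) ?_ hdvd'
        exact mul_ne_zero (X_sub_C_ne_zero t) (X_sub_C_ne_zero (-t))) hadj
  refine ⟨φ, fun j => ?_⟩
  have h1 := DFunLike.congr_fun hφ (⟨x j, hmem j⟩ : IntermediateField.adjoin K (Set.range x))
  rw [hθ j] at h1
  exact h1

end Pool.Agent.H5.UT
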