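import Pool.Agent.H12.UT.Targets2

/-!
MP_8b378c_ag, board utn_modules, row FR.
-/

set_option autoImplicit false

open Polynomial
open Pool.Agent.H12.UT

namespace Pool.Agent.H5.UT

theorem pf_FR : T_FR := by
  intro K Ω _ _ _ N ⟨e⟩
  let F := FractionRing (MvPolynomial (Fin N) K)
  let t : Fin N → F := fun j => algebraMap (MvPolynomial (Fin N) K) F (MvPolynomial.X j)
  have haev : ∀ f : MvPolynomial (Fin N) K,
      MvPolynomial.aeval t f = algebraMap (MvPolynomial (Fin N) K) F f := by
    intro f
    have h : (MvPolynomial.aeval t : MvPolynomial (Fin N) K →ₐ[K] F) =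
        IsScalarTower.toAlgHom K (MvPolynomial (Fin N) K) F := by
      apply MvPolynomial.algHom_ext
      intro j
      rw [MvPolynomial.aeval_X]
      rfl
    rw [h]
    rfl
  have ht : AlgebraicIndependent K t := by
    rw [algebraicIndependent_iff_injective_aeval]
    intro f g hfg
    rw [haev, haev] at hfg
    exact IsFractionRing.injective _ _ hfg
  have htop : IntermediateField.adjoin K (Set.range t) = ⊤ := by
    rw [eq_top_iff]
    intro y _
    obtain ⟨p, q, hq, rfl⟩ := IsFractionRing.div_surjective (A := MvPolynomial (Fin N) K) y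
    have hmem : ∀ f : MvPolynomial (Fin N) K,
        algebraMap (MvPolynomial (Fin N) K) F f ∈ IntermediateField.adjoin K (Set.range t) := by
      intro f
      rw [← haev f]
      have h1 : MvPolynomial.aeval t f ∈ Algebra.adjoin K (Set.range t) := by
        rw [Algebra.adjoin_range_eq_range_aeval]
        exact ⟨f, rfl⟩
      exact IntermediateField.algebra_adjoin_le_adjoin K _ h1
    exact div_mem (hmem p) (hmem q)
  refine ⟨fun j => e.symm (t j), ?_, ?_⟩
  · exact ht.map' (f := (e.symm : F →ₐ[K] Ω)) e.symm.injective
  · have h1 : Set.range (fun j => e.symm (t j)) = (e.symm : F →ₐ[K] Ω) '' Set.range t := by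
      rw [← Set.range_comp]
      rfl
    rw [h1, ← IntermediateField.adjoin_map, htop, ← AlgHom.fieldRange_eq_map,
      AlgHom.fieldRange_eq_top]
    exact e.symm.surjective

end Pool.Agent.H5.UT
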