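import Pool.Agent.H12.UT.Targets2

/-!
MP_8b378c_ag, board utn_modules, row JK.
-/

set_option autoImplicit false

open Polynomial
open Pool.Agent.H12.UT

namespace Pool.Agent.H5.UT

theorem jk_coeff {E : Type} [Field E] (f : E[X]) (n : ℕ) :
    (eval₂RingHom (HahnSeries.C : E →+* HS E) (HahnSeries.single (1 : ℝ) (1 : E)) f).coeff
      (n : ℝ) = f.coeff n := by
  rw [coe_eval₂RingHom]
  induction f using Polynomial.induction_on' with
  | add p q hp hq =>
    rw [Polynomial.eval₂_add, HahnSeries.coeff_add, hp, hq, Polynomial.coeff_add]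
  | monomial k a =>
    rw [Polynomial.eval₂_monomial, HahnSeries.single_pow, one_pow, nsmul_eq_mul, mul_one,
      HahnSeries.C_apply, HahnSeries.single_mul_single, zero_add, mul_one, Polynomial.coeff_monomial]
    by_cases h : k = n
    · rw [if_pos h, h, HahnSeries.coeff_single_same]
    · rw [if_neg h, HahnSeries.coeff_single_of_ne]
      intro h2
      exact h (by exact_mod_cast h2.symm)

theorem pf_JK : T_JK := by
  have hinj : Function.Injective
      (eval₂RingHom (HahnSeries.C : Kap →+* HS Kap) (HahnSeries.single (1 : ℝ) (1 : Kap))) := by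
    rw [injective_iff_map_eq_zero]
    intro f hf
    ext n
    rw [← jk_coeff f n, hf, HahnSeries.coeff_zero, Polynomial.coeff_zero]
  refine ⟨IsFractionRing.lift hinj, fun c => ?_, ?_⟩
  · rw [cK, RingHom.comp_apply, IsFractionRing.lift_algebraMap, coe_eval₂RingHom,
      Polynomial.eval₂_C]
  · rw [tK, IsFractionRing.lift_algebraMap, coe_eval₂RingHom, Polynomial.eval₂_X]

end Pool.Agent.H5.UT
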