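import Pool.Agent.H12.UT.Targets2

/-!
MP_8b378c_ag, board utn_modules, row NZ.
-/

set_option autoImplicit false

open Polynomial
open Pool.Agent.H12.UT

namespace Pool.Agent.H5.UT

theorem algMap_ne (f : MvPolynomial (Fin 3) ℚ) (h : MvPolynomial.eval (fun _ => (1 : ℚ)) f ≠ 0) :
    algebraMap (MvPolynomial (Fin 3) ℚ) Kap f ≠ 0 := by
  intro h0
  have hinj : Function.Injective (algebraMap (MvPolynomial (Fin 3) ℚ) Kap) :=
    IsFractionRing.injective _ _
  have h1 : f = 0 := (injective_iff_map_eq_zero _).mp hinj f h0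
  rw [h1, map_zero] at h
  exact h rfl

theorem pf_NZ : T_NZ := by
  refine ⟨fun i => ?_, ?_, ?_, ?_, ?_, ?_, ?_, ?_⟩
  · exact algMap_ne _ (by simp)
  · have h : aK = algebraMap (MvPolynomial (Fin 3) ℚ) Kap (MvPolynomial.X 0 ^ 2 + 1) := by
      simp only [aK, xx, map_add, map_pow, map_one]
    rw [h]
    exact algMap_ne _ (by simp only [map_add, map_pow, map_one, MvPolynomial.eval_X]; norm_num)
  · have h : bK = algebraMap (MvPolynomial (Fin 3) ℚ) Kap (MvPolynomial.X 1 ^ 2 + 1) := by
      simp only [bK, xx, map_add, map_pow, map_one]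
    rw [h]
    exact algMap_ne _ (by simp only [map_add, map_pow, map_one, MvPolynomial.eval_X]; norm_num)
  · have h : dK = algebraMap (MvPolynomial (Fin 3) ℚ) Kap (MvPolynomial.X 2 ^ 2 + 1) := by
      simp only [dK, xx, map_add, map_pow, map_one]
    rw [h]
    exact algMap_ne _ (by simp only [map_add, map_pow, map_one, MvPolynomial.eval_X]; norm_num)
  · have h : m3 = algebraMap (MvPolynomial (Fin 3) ℚ) Kap (2 * MvPolynomial.X 2 ^ 2 + 1) := by
      simp only [m3, xx, map_add, map_mul, map_pow, map_one, map_ofNat]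
    rw [h]
    exact algMap_ne _ (by
      simp only [map_add, map_mul, map_pow, map_one, map_ofNat, MvPolynomial.eval_X]; norm_num)
  · have h : m4 = algebraMap (MvPolynomial (Fin 3) ℚ) Kap (2 * (MvPolynomial.X 0 ^ 2 + 1) *
        (MvPolynomial.X 1 ^ 2 + 1) * (MvPolynomial.X 2 ^ 2 + 1) - 1) := by
      simp only [m4, aK, bK, dK, xx, map_add, map_sub, map_mul, map_pow, map_one, map_ofNat]
    rw [h]
    exact algMap_ne _ (by
      simp only [map_add, map_sub, map_mul, map_pow, map_one, map_ofNat, MvPolynomial.eval_X]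
      norm_num)
  · have h : xx 2 * (xx 0 * xx 1 - 1) - (xx 0 + xx 1) =
        algebraMap (MvPolynomial (Fin 3) ℚ) Kap (MvPolynomial.X 2 * (MvPolynomial.X 0 *
        MvPolynomial.X 1 - 1) - (MvPolynomial.X 0 + MvPolynomial.X 1)) := by
      simp only [xx, map_add, map_sub, map_mul, map_one]
    rw [h]
    exact algMap_ne _ (by
      simp only [map_add, map_sub, map_mul, map_one, MvPolynomial.eval_X]
      norm_num)
  · have h : (xx 0 * xx 1 - 1) + xx 2 * (xx 0 + xx 1) =
        algebraMap (MvPolynomial (Fin 3) ℚ) Kap ((MvPolynomial.X 0 *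
        MvPolynomial.X 1 - 1) + MvPolynomial.X 2 * (MvPolynomial.X 0 + MvPolynomial.X 1)) := by
      simp only [xx, map_add, map_sub, map_mul, map_one]
    rw [h]
    exact algMap_ne _ (by
      simp only [map_add, map_sub, map_mul, map_one, MvPolynomial.eval_X]
      norm_num)

end Pool.Agent.H5.UT
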