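import Pool.Agent.H12.UT.Targets2

/-!
MP_8b378c_ag, board utn_modules, row RD1.
-/

set_option autoImplicit false

open Polynomial
open Pool.Agent.H12.UT

namespace Pool.Agent.H5.UT

/-- no terms of negative order and constant term `c` -/
def ZO {E : Type} [Field E] (f : HS E) (c : E) : Prop :=
  f.coeff 0 = c ∧ ∀ r : ℝ, r < 0 → f.coeff r = 0

section

variable {E : Type} [Field E]

theorem ZO.order {f : HS E} {c : E} (h : ZO f c) (hc : c ≠ 0) :
    f.order = 0 ∧ f.leadingCoeff = c := by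
  have hf : f ≠ 0 := by
    intro h0
    apply hc
    rw [← h.1, h0, HahnSeries.coeff_zero]
  have h1 : f.order ≤ 0 := HahnSeries.order_le_of_coeff_ne_zero (by rw [h.1]; exact hc)
  have h2 : f.order = 0 := by
    by_contra hne
    have hlt : f.order < 0 := lt_of_le_of_ne h1 hne
    exact hf (HahnSeries.coeff_order_eq_zero.mp (h.2 _ hlt))
  refine ⟨h2, ?_⟩
  rw [HahnSeries.leadingCoeff_eq, h2, h.1]

theorem ZO.nonneg {f : HS E} {c : E} (h : ZO f c) : 0 ≤ f.order := by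
  by_cases hf : f = 0
  · rw [hf, HahnSeries.order_zero]
  · by_contra hne
    exact hf (HahnSeries.coeff_order_eq_zero.mp (h.2 _ (not_le.mp hne)))

theorem ZO.of_order {f : HS E} {c : E} (h0 : f.order = 0) (hc : f.leadingCoeff = c) : ZO f c := by
  refine ⟨?_, ?_⟩
  · rw [← hc, HahnSeries.leadingCoeff_eq, h0]
  · intro r hr
    exact HahnSeries.coeff_eq_zero_of_lt_order (by rw [h0]; exact hr)

theorem ZO.add {f g : HS E} {c d : E} (hf : ZO f c) (hg : ZO g d) : ZO (f + g) (c + d) := by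
  refine ⟨?_, ?_⟩
  · rw [HahnSeries.coeff_add, hf.1, hg.1]
  · intro r hr
    rw [HahnSeries.coeff_add, hf.2 r hr, hg.2 r hr, add_zero]

theorem ZO.neg {f : HS E} {c : E} (hf : ZO f c) : ZO (-f) (-c) := by
  refine ⟨?_, ?_⟩
  · rw [HahnSeries.coeff_neg, hf.1]
  · intro r hr
    rw [HahnSeries.coeff_neg, hf.2 r hr, neg_zero]

theorem ZO.sub {f g : HS E} {c d : E} (hf : ZO f c) (hg : ZO g d) : ZO (f - g) (c - d) := by
  rw [sub_eq_add_neg, sub_eq_add_neg]
  exact hf.add hg.neg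

theorem ZO.mul {f g : HS E} {c d : E} (hf : ZO f c) (hg : ZO g d) : ZO (f * g) (c * d) := by
  have hs : ∀ (x : HS E) (e : E), ZO x e → ∀ r ∈ x.support, 0 ≤ r := by
    intro x e hx r hr
    by_contra hne
    exact hr (hx.2 r (not_le.mp hne))
  refine ⟨?_, ?_⟩
  · rw [HahnSeries.coeff_mul]
    rw [Finset.sum_eq_single ((0 : ℝ), (0 : ℝ))]
    · rw [hf.1, hg.1]
    · rintro ⟨i, j⟩ hij hne
      exfalso
      rw [Finset.mem_antidiagonal] at hij
      have h1 := hs f c hf i hij.1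
      have h2 := hs g d hg j hij.2.1
      have h3 : i + j = 0 := hij.2.2
      apply hne
      rw [Prod.mk.injEq]
      constructor <;> linarith
    · intro hn
      by_contra h
      apply hn
      rw [Finset.mem_antidiagonal]
      refine ⟨?_, ?_, by simp⟩
      · intro h0
        exact h (by simp only; rw [h0, zero_mul])
      · intro h0
        exact h (by simp only; rw [h0, mul_zero])
  · intro r hr
    rw [HahnSeries.coeff_mul]
    apply Finset.sum_eq_zero
    rintro ⟨i, j⟩ hij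
    exfalso
    rw [Finset.mem_antidiagonal] at hij
    have h1 := hs f c hf i hij.1
    have h2 := hs g d hg j hij.2.1
    have h3 : i + j = r := hij.2.2
    linarith

theorem ZO.C (c : E) : ZO (HahnSeries.C c : HS E) c := by
  refine ⟨?_, ?_⟩
  · rw [HahnSeries.C_apply, HahnSeries.coeff_single_same]
  · intro r hr
    rw [HahnSeries.C_apply, HahnSeries.coeff_single_of_ne (ne_of_lt hr)]

theorem ZO.T : ZO (HahnSeries.single (1 : ℝ) (1 : E) : HS E) 0 := by
  refine ⟨?_, ?_⟩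
  · rw [HahnSeries.coeff_single_of_ne (by norm_num)]
  · intro r hr
    rw [HahnSeries.coeff_single_of_ne (by linarith)]

theorem ZO.one : ZO (1 : HS E) 1 := by
  have := ZO.C (1 : E)
  rwa [map_one] at this

theorem ZO.two : ZO (2 : HS E) 2 := by
  have := (ZO.one (E := E)).add ZO.one
  rwa [one_add_one_eq_two, one_add_one_eq_two] at this

end

section

variable [Algebra KK (HS Kap)]

theorem aeval_PK (ht : algebraMap KK (HS Kap) tK = HahnSeries.single 1 1) (s : HS Kap) :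
    aeval s PK = 2 * (1 - HahnSeries.single 1 1) * s * (s - HahnSeries.single 1 1) * (s + 1) := by
  rw [PK]
  simp only [map_mul, map_sub, map_add, map_one, aeval_X, aeval_C, map_ofNat, ht]

theorem aeval_QK (hc : ∀ c, algebraMap KK (HS Kap) (cK c) = HahnSeries.C c)
    (ht : algebraMap KK (HS Kap) tK = HahnSeries.single 1 1) (s : HS Kap) :
    aeval s QK = HahnSeries.C aK * (HahnSeries.C m3 * s + HahnSeries.single 1 1) *
      (HahnSeries.C m4 * s + HahnSeries.single 1 1) := by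
  rw [QK]
  simp only [map_mul, map_add, aeval_X, aeval_C, ht, hc]

theorem con_aux (hc : ∀ c, algebraMap KK (HS Kap) (cK c) = HahnSeries.C c)
    (ht : algebraMap KK (HS Kap) tK = HahnSeries.single 1 1) (s : HS Kap) (q : Kap)
    (h0 : s.order = 0) (hl : s.leadingCoeff = q) (hq : q ≠ 0) (hq1 : q + 1 ≠ 0) :
    (aeval s PK).order = 0 ∧ (aeval s PK).leadingCoeff = 2 * q ^ 2 * (q + 1) ∧
    0 ≤ (aeval s QK).order := by
  have hs : ZO s q := ZO.of_order h0 hl
  have hP : ZO (aeval s PK) (2 * (1 - 0) * q * (q - 0) * (q + 1)) := by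
    rw [aeval_PK ht]
    exact (((ZO.two.mul (ZO.one.sub ZO.T)).mul hs).mul (hs.sub ZO.T)).mul (hs.add ZO.one)
  have hQ : ZO (aeval s QK) (aK * (m3 * q + 0) * (m4 * q + 0)) := by
    rw [aeval_QK hc ht]
    exact ((ZO.C aK).mul (((ZO.C m3).mul hs).add ZO.T)).mul (((ZO.C m4).mul hs).add ZO.T)
  have he : (2 : Kap) * (1 - 0) * q * (q - 0) * (q + 1) = 2 * q ^ 2 * (q + 1) := by ring
  rw [he] at hP
  have hne : (2 : Kap) * q ^ 2 * (q + 1) ≠ 0 :=
    mul_ne_zero (mul_ne_zero two_ne_zero (pow_ne_zero 2 hq)) hq1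
  exact ⟨(hP.order hne).1, (hP.order hne).2, hQ.nonneg⟩

end

theorem pf_RD1 : T_RD1 := by
  intro hNZ _ hc ht
  obtain ⟨hx, ha, hb, hd, hm3, hm4, hA, hB⟩ := hNZ
  have h9 : (9 : Kap) ≠ 0 := by norm_num
  refine ⟨![xx 0, xx 1, xx 2, (xx 2 * (xx 0 * xx 1 - 1) - (xx 0 + xx 1)) /
    ((xx 0 * xx 1 - 1) + xx 2 * (xx 0 + xx 1)), 2],
    ![1, 1, 1, 1 / ((xx 0 * xx 1 - 1) + xx 2 * (xx 0 + xx 1)), 0], 3, 0, ?_⟩
  refine ⟨by norm_num, h9, ?_, by norm_num, ?_, ?_, ?_, ?_⟩
  · intro i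
    fin_cases i
    · exact hx 0
    · exact hx 1
    · exact hx 2
    · exact div_ne_zero hA hB
    · exact two_ne_zero
  · intro i hi
    fin_cases i
    · show (-1 : Kap) + aK * 1 ^ 2 = xx 0 ^ 2
      rw [aK]; ring
    · show (-1 : Kap) + bK * 1 ^ 2 = xx 1 ^ 2
      rw [bK]; ring
    · show (-1 : Kap) + dK * 1 ^ 2 = xx 2 ^ 2
      rw [dK]; ring
    · show (-1 : Kap) + aK * bK * dK * (1 / ((xx 0 * xx 1 - 1) + xx 2 * (xx 0 + xx 1))) ^ 2 =
        ((xx 2 * (xx 0 * xx 1 - 1) - (xx 0 + xx 1)) /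
          ((xx 0 * xx 1 - 1) + xx 2 * (xx 0 + xx 1))) ^ 2
      rw [aK, bK, dK]
      field_simp
      ring
    · exact absurd rfl hi
  · show ((-1 : Kap) + 9) / 2 + gK * 0 ^ 2 = 2 ^ 2
    norm_num
  · show (9 : Kap) + gK * 0 ^ 2 = 3 ^ 2
    norm_num
  · intro s h0 hl
    have hq : (-1 : Kap) / 9 ≠ 0 := by norm_num
    have hq1 : (-1 : Kap) / 9 + 1 ≠ 0 := by norm_num
    obtain ⟨h1, h2, h3⟩ := con_aux hc ht s _ h0 hl hq hq1
    refine ⟨h1, ⟨4 / 27, by norm_num, ?_⟩, h3⟩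
    rw [h2]
    norm_num

end Pool.Agent.H5.UT
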